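import Mathlib
import Pool.Agent.X72.SAP4
import Pool.Agent.X72.SAP4Table

/-! Every superpattern of `T₂ ⊕ T₂` is spectrally arbitrary. -/

namespace Pool.Agent.Results.MP_b6277e_co.AllSuperpatterns

open Polynomial Matrix

/-- `𝓐` is spectrally arbitrary: every monic real polynomial of degree `n` is the characteristic
polynomial of a real matrix with sign pattern `𝓐`. -/
def SpectrallyArbitrary {n : ℕ} (𝓐 : Matrix (Fin n) (Fin n) SignType) : Prop :=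
  ∀ p : ℝ[X], p.Monic → p.natDegree = n →
    ∃ A : Matrix (Fin n) (Fin n) ℝ, (∀ i j, SignType.sign (A i j) = 𝓐 i j) ∧ A.charpoly = p

/-- `𝓑` is a superpattern of `𝓐`. -/
def IsSuperpattern {n : ℕ} (𝓑 𝓐 : Matrix (Fin n) (Fin n) SignType) : Prop :=
  ∀ i j, 𝓐 i j ≠ 0 → 𝓑 i j = 𝓐 i j

/-- the sign pattern `T₂ ⊕ T₂` -/
def T2T2 : Matrix (Fin 4) (Fin 4) SignType :=
  !![1, 1, 0, 0;
     -1, -1, 0, 0;
     0, 0, 1, 1;
     0, 0, -1, -1]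

open Pool.Agent.X72.SAP4

lemma factor {p : ℝ[X]} (hp : p.Monic) (hd : p.natDegree = 4) :
    ∃ a b c d : ℝ, p = (X ^ 2 + C a * X + C b) * (X ^ 2 + C c * X + C d) := by
  have h : IsMonicOfDegree p (2 + 2) := ⟨hd, hp⟩
  obtain ⟨f₁, f₂, h1, h2, h3⟩ := h.eq_isMonicOfDegree_two_mul_isMonicOfDegree
  obtain ⟨a, b, rfl⟩ := isMonicOfDegree_two_iff.1 h1
  obtain ⟨c, d, rfl⟩ := isMonicOfDegree_two_iff.1 h2
  exact ⟨a, b, c, d, h3⟩

/-- entries of a realization of `T₂` with characteristic polynomial `X² + a X + b`. -/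
lemma t2 (a b : ℝ) : ∃ α γ δ : ℝ, 0 < α ∧ 0 < γ ∧ 0 < δ ∧ δ - α = a ∧ γ - α * δ = b := by
  refine ⟨1 + |a| + |b|, b + (1 + |a| + |b|) * (1 + |a| + |b| + a), 1 + |a| + |b| + a,
    by positivity, ?_, ?_, by ring, by ring⟩
  · have h1 : 1 + |b| ≤ 1 + |a| + |b| + a := by have := neg_abs_le a; linarith
    have h2 : 1 ≤ 1 + |a| + |b| := by have := abs_nonneg a; have := abs_nonneg b; linarith
    have h3 : 1 + |b| ≤ (1 + |a| + |b|) * (1 + |a| + |b| + a) := by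
      have h4 : 0 ≤ 1 + |b| := by positivity
      nlinarith
    have h5 := neg_abs_le b
    linarith
  · have := neg_abs_le a
    have := abs_nonneg b
    linarith

lemma sign_coe (s : SignType) : SignType.sign (s : ℝ) = s := by
  cases s <;> simp

lemma poly_coeffs {p : ℝ[X]} (hp : p.Monic) (hd : p.natDegree = 4) :
    ∃ a : Fin 4 → ℝ, p = X ^ 4 + C (a 0) * X ^ 3 + C (a 1) * X ^ 2 + C (a 2) * X + C (a 3) := by
  obtain ⟨a, b, c, d, rfl⟩ := factor hp hd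
  refine ⟨![a + c, b + d + a * c, a * d + b * c, b * d], ?_⟩
  simp only [Matrix.cons_val_zero, Matrix.cons_val_one, Matrix.cons_val, map_add, map_mul]
  ring

/-- block triangular case -/
lemma block_case (𝓑 : Matrix (Fin 4) (Fin 4) SignType) (h : IsSuperpattern 𝓑 T2T2)
    (h0 : (𝓑 2 0 = 0 ∧ 𝓑 2 1 = 0 ∧ 𝓑 3 0 = 0 ∧ 𝓑 3 1 = 0) ∨
      (𝓑 0 2 = 0 ∧ 𝓑 0 3 = 0 ∧ 𝓑 1 2 = 0 ∧ 𝓑 1 3 = 0)) :
    SpectrallyArbitrary 𝓑 := by
  intro p hp hd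
  obtain ⟨a, b, c, d, rfl⟩ := factor hp hd
  obtain ⟨α, γ, δ, hα, hγ, hδ, e1, e2⟩ := t2 a b
  obtain ⟨α', γ', δ', hα', hγ', hδ', e3, e4⟩ := t2 c d
  have s00 : 𝓑 0 0 = 1 := h 0 0 (by decide)
  have s01 : 𝓑 0 1 = 1 := h 0 1 (by decide)
  have s10 : 𝓑 1 0 = -1 := h 1 0 (by decide)
  have s11 : 𝓑 1 1 = -1 := h 1 1 (by decide)
  have s22 : 𝓑 2 2 = 1 := h 2 2 (by decide)
  have s23 : 𝓑 2 3 = 1 := h 2 3 (by decide)
  have s32 : 𝓑 3 2 = -1 := h 3 2 (by decide)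
  have s33 : 𝓑 3 3 = -1 := h 3 3 (by decide)
  refine ⟨!![α, 1, (𝓑 0 2 : ℝ), (𝓑 0 3 : ℝ);
            -γ, -δ, (𝓑 1 2 : ℝ), (𝓑 1 3 : ℝ);
            (𝓑 2 0 : ℝ), (𝓑 2 1 : ℝ), α', 1;
            (𝓑 3 0 : ℝ), (𝓑 3 1 : ℝ), -γ', -δ'], ?_, ?_⟩
  · intro i j
    fin_cases i <;> fin_cases j <;>
      simp [s00, s01, s10, s11, s22, s23, s32, s33, hα, hγ, hδ, hα', hγ', hδ', sign_coe]
  · rw [charpoly_eq]
    rcases h0 with ⟨z1, z2, z3, z4⟩ | ⟨z1, z2, z3, z4⟩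
    · simp only [cc, z1, z2, z3, z4, SignType.coe_zero, Matrix.of_apply, Matrix.cons_val', Matrix.cons_val_zero,
        Matrix.cons_val_one, Matrix.cons_val, ← e1, ← e2, ← e3, ← e4]
      simp only [map_add, map_mul, map_neg, map_sub, map_zero, map_one]
      ring
    · simp only [cc, z1, z2, z3, z4, SignType.coe_zero, Matrix.of_apply, Matrix.cons_val', Matrix.cons_val_zero,
        Matrix.cons_val_one, Matrix.cons_val, ← e1, ← e2, ← e3, ← e4]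
      simp only [map_add, map_mul, map_neg, map_sub, map_zero, map_one]
      ring

lemma sgn_bool (s : SignType) (hs : s ≠ 0) : ∃ b : Bool, (s : ℝ) = ((sg b : ℤ) : ℝ) := by
  cases s
  · exact absurd rfl hs
  · exact ⟨false, by simp [sg]⟩
  · exact ⟨true, by simp [sg]⟩

lemma sign_of_mul_pos (s : SignType) (x : ℝ) (h : 0 < (s : ℝ) * x) : SignType.sign x = s := by
  cases s
  · simp at h
  · simp at h; simp [h]
  · simp at h; simp [h]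

lemma TT_eq (p q : Fin 4) (h : TT p q ≠ 0) : T2T2 p q ≠ 0 ∧ ((T2T2 p q : SignType) : ℝ) = ((TT p q : ℤ) : ℝ) := by
  fin_cases p <;> fin_cases q <;> simp_all [TT, T2T2]

/-- the case where both off-diagonal blocks are nonzero -/
lemma main_case (𝓑 : Matrix (Fin 4) (Fin 4) SignType) (h : IsSuperpattern 𝓑 T2T2)
    (i j k l : Fin 2) (hb : 𝓑 (Fin.castAdd 2 i) (Fin.natAdd 2 j) ≠ 0)
    (hc : 𝓑 (Fin.natAdd 2 k) (Fin.castAdd 2 l) ≠ 0) :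
    SpectrallyArbitrary 𝓑 := by
  intro p hp hd
  obtain ⟨a, ha⟩ := poly_coeffs hp hd
  obtain ⟨sb, hsb⟩ := sgn_bool _ hb
  obtain ⟨sc, hsc⟩ := sgn_bool _ hc
  obtain ⟨g1, g2, g3, g4, g5, g6, g7⟩ := allGood i j k l sb sc
  set N := NM i j k l sb sc with hN
  have key := nj (fun p q => (N p q : ℝ)) (fun k => by rw [cc_cast, g1 k, Int.cast_zero])
    (by rw [dd_cast]; exact_mod_cast g2) (by exact_mod_cast g3) (by exact_mod_cast g4)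
    (by exact_mod_cast g5) (by exact_mod_cast g6) 𝓑 ?_ a
  · obtain ⟨A, hA1, hA2⟩ := key
    refine ⟨A, hA1, ?_⟩
    rw [charpoly_eq, ha, hA2, hA2, hA2, hA2]
  · intro p q hpq
    have hpq' : N p q ≠ 0 := by exact_mod_cast hpq
    apply sign_of_mul_pos
    rcases g7 p q hpq' with ⟨h1, h2⟩ | ⟨rfl, rfl, h2⟩ | ⟨rfl, rfl, h2⟩
    · obtain ⟨h3, h4⟩ := TT_eq p q h1
      rw [h p q h3, h4]
      exact_mod_cast h2
    · rw [hsb]
      exact_mod_cast h2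
    · rw [hsc]
      exact_mod_cast h2

/-- **Every superpattern of `T₂ ⊕ T₂` is spectrally arbitrary.** -/
theorem result (𝓑 : Matrix (Fin 4) (Fin 4) SignType) (h : IsSuperpattern 𝓑 T2T2) :
    SpectrallyArbitrary 𝓑 := by
  by_cases hC : 𝓑 2 0 = 0 ∧ 𝓑 2 1 = 0 ∧ 𝓑 3 0 = 0 ∧ 𝓑 3 1 = 0
  · exact block_case 𝓑 h (Or.inl hC)
  by_cases hB : 𝓑 0 2 = 0 ∧ 𝓑 0 3 = 0 ∧ 𝓑 1 2 = 0 ∧ 𝓑 1 3 = 0
  · exact block_case 𝓑 h (Or.inr hB)
  have h1 : ∃ i j : Fin 2, 𝓑 (Fin.castAdd 2 i) (Fin.natAdd 2 j) ≠ 0 := by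
    by_contra hcon
    push Not at hcon
    exact hB ⟨hcon 0 0, hcon 0 1, hcon 1 0, hcon 1 1⟩
  have h2 : ∃ k l : Fin 2, 𝓑 (Fin.natAdd 2 k) (Fin.castAdd 2 l) ≠ 0 := by
    by_contra hcon
    push Not at hcon
    exact hC ⟨hcon 0 0, hcon 0 1, hcon 1 0, hcon 1 1⟩
  obtain ⟨i, j, hij⟩ := h1
  obtain ⟨k, l, hkl⟩ := h2
  exact main_case 𝓑 h i j k l hij hkl

end Pool.Agent.Results.MP_b6277e_co.AllSuperpatterns
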